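import Pool.Agent.V11290.VW.F4

/-!
# Montgomery's inequality for Weyl sums at typical points of sets of small dimension

Let `μ` be ANY probability measure on the line with `|μ^(ξ)| ≤ C |ξ| ^ (-σ)` (such `μ` live on null sets of dimension close to
`2 σ`). For `k ≥ 4` and `σ ≥ 4 / k²` the inequality of `H_k(1/k)` holds for `μ`-almost every `t`, for all `N`, all `ξ` and
all `a/q`; for `σ ≥ 2 / k²` it holds for every `k ≥ 2` and each fixed `ξ`. For all `σ > 0` there are weaker bounds, and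
arbitrary coefficients are allowed.
-/

set_option autoImplicit false

namespace Pool.Agent.Results.MP_3b0be2_nt.FourierDecay

open Finset MeasureTheory

/-- the Weyl sum with coefficients: the sum of `c_n e(t n^k + ξ n)` over `1 ≤ n ≤ N` -/
noncomputable def W (c : ℕ → ℂ) (k : ℕ) (t ξ : ℝ) (N : ℕ) : ℂ :=
  ∑ n ∈ Icc 1 N, c n * Complex.exp (2 * Real.pi * Complex.I * ((t * (n : ℝ) ^ k + ξ * n : ℝ) : ℂ))

/-- the inequality of `H_k(η)` at the points `t`, `ξ`, with the constant `K`, for all `N`, `a`, `q` -/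
def Ineq (k : ℕ) (η ε K t ξ : ℝ) : Prop :=
  ∀ N a q : ℕ, 2 ≤ N → 1 ≤ a → a < q → q ≤ N → Nat.Coprime a q → |t - a / q| ≤ 1 / (q : ℝ) ^ 2 →
    ‖∑ n ∈ Icc 1 N, Complex.exp (2 * Real.pi * Complex.I * ((t * (n : ℝ) ^ k + ξ * n : ℝ) : ℂ))‖ ≤
      K * (N : ℝ) ^ (1 + ε) * (1 / (q : ℝ) + 1 / N + q / (N : ℝ) ^ k) ^ η

/-- **Theorem.** Let `μ` be a probability measure on the line with `|μ^(ξ)| ≤ C |ξ| ^ (-σ)` for `|ξ| ≥ 1`, `0 < σ < 1`, and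
`k ≥ 2`. Let `c_n` be complex numbers with `|c_n| ≤ 1`.

(1) For `μ`-almost every `t` and all `ε > 0` there is `K` such that, for ALL real `ξ` and all `N`, the sum of
`c_n e(t n^k + ξ n)` over `n ≤ N` is at most `K N^(max(3/4, 1 - k σ / 4) + ε)`.

(2) For every `ξ`, for `μ`-almost every `t` and all `ε > 0` there is `K` such that for all `N` this sum is at most
`K N^(max(1/2, 1 - k σ / 2) + ε)`.

(3) If `0 ≤ η ≤ 1/4` and `η ≤ k σ / 4` (if `k ≥ 4` and `σ ≥ 4 / k²`, `η = 1/k` is such a number), then for `μ`-almost every `t`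
and all `ε > 0` the inequality of `H_k(η)` holds at `t` for ALL `ξ`, `N`, `a` and `q`, with one constant.

(4) If `0 ≤ η ≤ 1/2` and `η ≤ k σ / 2` (if `σ ≥ 2 / k²`, `η = 1/k` is such a number), then for every `ξ`, for `μ`-almost every
`t` and all `ε > 0`, the inequality of `H_k(η)` holds at `t`, `ξ` for all `N`, `a` and `q`, with one constant. -/
theorem result (μ : Measure ℝ) [IsProbabilityMeasure μ] (C σ : ℝ) (hσ0 : 0 < σ) (hσ1 : σ < 1)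
    (hdec : ∀ ξ : ℝ, 1 ≤ |ξ| → ‖charFun μ ξ‖ ≤ C * |ξ| ^ (-σ)) (k : ℕ) (hk : 2 ≤ k) :
    (∀ c : ℕ → ℂ, (∀ n, ‖c n‖ ≤ 1) → ∀ᵐ t ∂μ, ∀ ε : ℝ, 0 < ε → ∃ K : ℝ, ∀ (N : ℕ) (ξ : ℝ), 1 ≤ N →
      ‖W c k t ξ N‖ ≤ K * (N : ℝ) ^ (max (3 / 4) (1 - k * σ / 4) + ε)) ∧
    (∀ c : ℕ → ℂ, (∀ n, ‖c n‖ ≤ 1) → ∀ ξ : ℝ, ∀ᵐ t ∂μ, ∀ ε : ℝ, 0 < ε → ∃ K : ℝ, ∀ N : ℕ, 1 ≤ N →
      ‖W c k t ξ N‖ ≤ K * (N : ℝ) ^ (max (1 / 2) (1 - k * σ / 2) + ε)) ∧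
    (∀ η : ℝ, 0 ≤ η → η ≤ 1 / 4 → η ≤ k * σ / 4 → ∀ᵐ t ∂μ, ∀ ε : ℝ, 0 < ε → ∃ K : ℝ, ∀ ξ : ℝ, Ineq k η ε K t ξ) ∧
    (4 ≤ k → 4 / (k : ℝ) ^ 2 ≤ σ → ∀ᵐ t ∂μ, ∀ ε : ℝ, 0 < ε → ∃ K : ℝ, ∀ ξ : ℝ, Ineq k (1 / k) ε K t ξ) ∧
    (∀ η : ℝ, 0 ≤ η → η ≤ 1 / 2 → η ≤ k * σ / 2 → ∀ ξ : ℝ, ∀ᵐ t ∂μ, ∀ ε : ℝ, 0 < ε → ∃ K : ℝ, Ineq k η ε K t ξ) ∧
    (2 / (k : ℝ) ^ 2 ≤ σ → ∀ ξ : ℝ, ∀ᵐ t ∂μ, ∀ ε : ℝ, 0 < ε → ∃ K : ℝ, Ineq k (1 / k) ε K t ξ) := by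
  have hk0 : (0 : ℝ) < k := by
    have : (2 : ℝ) ≤ k := by exact_mod_cast hk
    linarith
  have A1 : ∀ c : ℕ → ℂ, (∀ n, ‖c n‖ ≤ 1) → ∀ᵐ t ∂μ, ∀ ε : ℝ, 0 < ε → ∃ K : ℝ, ∀ (N : ℕ) (ξ : ℝ), 1 ≤ N →
      ‖W c k t ξ N‖ ≤ K * (N : ℝ) ^ (max (3 / 4) (1 - k * σ / 4) + ε) :=
    fun c hc => Pool.Agent.V11290.VW.weyl_unif μ C σ hσ0 hσ1 hdec k hk c hc
  have A2 : ∀ c : ℕ → ℂ, (∀ n, ‖c n‖ ≤ 1) → ∀ ξ : ℝ, ∀ᵐ t ∂μ, ∀ ε : ℝ, 0 < ε → ∃ K : ℝ, ∀ N : ℕ, 1 ≤ N →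
      ‖W c k t ξ N‖ ≤ K * (N : ℝ) ^ (max (1 / 2) (1 - k * σ / 2) + ε) :=
    fun c hc ξ => Pool.Agent.V11290.VW.weyl_fixed μ C σ hσ0 hσ1 hdec k hk c hc ξ
  have conv : ∀ (η γ : ℝ), 0 ≤ η → γ ≤ 1 - η → ∀ (ε K t ξ : ℝ), (∀ N : ℕ, 1 ≤ N → ‖W (fun _ => 1) k t ξ N‖ ≤ K * (N : ℝ) ^ (γ + ε)) →
      Ineq k η ε K t ξ := by
    intro η γ hη hγ ε K t ξ h N a q hN ha haq hqN _ _
    have hN0 : (0 : ℝ) < N := by exact_mod_cast (by omega : 0 < N)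
    have hN1 : (1 : ℝ) ≤ N := by exact_mod_cast (by omega : 1 ≤ N)
    have hq0 : (0 : ℝ) < q := by exact_mod_cast (by omega : 0 < q)
    have h1 := h N (by omega)
    have e1 : W (fun _ => 1) k t ξ N = ∑ n ∈ Icc 1 N, Complex.exp (2 * Real.pi * Complex.I * ((t * (n : ℝ) ^ k + ξ * n : ℝ) : ℂ)) := by
      unfold W
      simp only [one_mul]
    rw [e1] at h1
    refine h1.trans ?_
    have hK0 : 0 ≤ K := by
      by_contra hcon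
      rw [not_le] at hcon
      have h3 : K * (N : ℝ) ^ (γ + ε) < 0 := mul_neg_of_neg_of_pos hcon (by positivity)
      linarith [norm_nonneg (∑ n ∈ Icc 1 N, Complex.exp (2 * Real.pi * Complex.I * ((t * (n : ℝ) ^ k + ξ * n : ℝ) : ℂ)))]
    have h4 : ((N : ℝ) ^ (-η)) ≤ (1 / (q : ℝ) + 1 / N + q / (N : ℝ) ^ k) ^ η := by
      have h5 : 1 / (N : ℝ) ≤ 1 / (q : ℝ) + 1 / N + q / (N : ℝ) ^ k := by
        have h6 : 0 ≤ 1 / (q : ℝ) := by positivity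
        have h7 : 0 ≤ q / (N : ℝ) ^ k := by positivity
        linarith
      have h8 := Real.rpow_le_rpow (by positivity) h5 hη
      have e2 : (1 / (N : ℝ)) ^ η = (N : ℝ) ^ (-η) := by rw [one_div, Real.inv_rpow hN0.le, ← Real.rpow_neg hN0.le]
      rw [e2] at h8
      exact h8
    calc K * (N : ℝ) ^ (γ + ε) ≤ K * ((N : ℝ) ^ (1 + ε) * (N : ℝ) ^ (-η)) := by
          apply mul_le_mul_of_nonneg_left _ hK0
          rw [← Real.rpow_add hN0]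
          exact Real.rpow_le_rpow_of_exponent_le hN1 (by linarith)
      _ = K * (N : ℝ) ^ (1 + ε) * (N : ℝ) ^ (-η) := by ring
      _ ≤ _ := mul_le_mul_of_nonneg_left h4 (by positivity)
  have A3 : ∀ η : ℝ, 0 ≤ η → η ≤ 1 / 4 → η ≤ k * σ / 4 → ∀ᵐ t ∂μ, ∀ ε : ℝ, 0 < ε → ∃ K : ℝ, ∀ ξ : ℝ, Ineq k η ε K t ξ := by
    intro η h1 h2 h3
    filter_upwards [A1 (fun _ => 1) (fun _ => by simp)] with t ht ε hε
    obtain ⟨K, hK⟩ := ht ε hε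
    refine ⟨K, fun ξ => conv η (max (3 / 4) (1 - k * σ / 4)) h1 (max_le (by linarith) (by linarith)) ε K t ξ fun N hN => hK N ξ hN⟩
  have A4 : ∀ η : ℝ, 0 ≤ η → η ≤ 1 / 2 → η ≤ k * σ / 2 → ∀ ξ : ℝ, ∀ᵐ t ∂μ, ∀ ε : ℝ, 0 < ε → ∃ K : ℝ, Ineq k η ε K t ξ := by
    intro η h1 h2 h3 ξ
    filter_upwards [A2 (fun _ => 1) (fun _ => by simp) ξ] with t ht ε hε
    obtain ⟨K, hK⟩ := ht ε hε
    exact ⟨K, conv η (max (1 / 2) (1 - k * σ / 2)) h1 (max_le (by linarith) (by linarith)) ε K t ξ hK⟩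
  refine ⟨A1, A2, A3, fun hk4 hσk => A3 (1 / k) (by positivity) ?_ ?_, A4, fun hσk => A4 (1 / k) (by positivity) ?_ ?_⟩
  · have h4 : (4 : ℝ) ≤ k := by exact_mod_cast hk4
    exact one_div_le_one_div_of_le (by norm_num) h4
  · rw [div_le_iff₀ (by positivity)] at hσk
    rw [div_le_iff₀ hk0]
    nlinarith
  · have h4 : (2 : ℝ) ≤ k := by exact_mod_cast hk
    exact one_div_le_one_div_of_le (by norm_num) h4
  · rw [div_le_iff₀ (by positivity)] at hσk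
    rw [div_le_iff₀ hk0]
    nlinarith

end Pool.Agent.Results.MP_3b0be2_nt.FourierDecay
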