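import Pool.Agent.Results.MP_3b0be2_nt.SquareRootExceptions
import Pool.Agent.Y854.GM.WinV

/-!
# Montgomery's inequality at ALL the numerators in windows around `α q`, for all lengths `N ≥ q`

Let `q_n` be primes, `t_n` arbitrary real numbers and `k ≥ 4`. For all `α` in `(0, 1)` outside a small set, all large `n` and
ALL the numerators `b` with `|b - α q_n| ≤ q_n ^ θ` the inequality of `H_k(1/k)` (with this `q_n`) holds at the point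
`t_n + b / q_n` for ALL `N ≥ q_n` and all real `ξ`.
-/

set_option autoImplicit false

open Finset Filter Topology MeasureTheory

namespace Pool.Agent.Results.MP_3b0be2_nt.NumeratorsInWindows

/-- the exponent of convergence of the sequence `v` is at most `τ` -/
def ExpLe (v : ℕ → ℝ) (τ : ℝ) : Prop := ∀ t : ℝ, τ < t → Summable (fun n : ℕ => (v n) ^ (-t))

/-- the sum of `c(m) e((b m ^ k + h(m)) / q + ξ m)` over `u < m ≤ w` -/
noncomputable def weyl (k : ℕ) (c : ℕ → ℂ) (q b : ℕ) (h : Polynomial ℤ) (ξ : ℝ) (u w : ℕ) : ℂ :=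
  ∑ m ∈ Ioc u w, c m * Complex.exp (2 * (Real.pi : ℂ) * Complex.I *
    ((((b : ℝ) * (m : ℝ) ^ k + ((h.eval (m : ℤ) : ℤ) : ℝ)) / (q : ℝ) + ξ * (m : ℝ) : ℝ) : ℂ))

/-- for all `N ≥ q`, all integer polynomials `h` of degree less than `k`, all real `ξ` and all `u`, `w ≤ N` the sum of
`c(m) e((b m ^ k + h(m)) / q + ξ m)` over `u < m ≤ w` is at most `N ^ (1 + ε) q ^ (-η)` -/
def Good (k : ℕ) (η ε : ℝ) (c : ℕ → ℂ) (q b : ℕ) : Prop :=
  ∀ N : ℕ, q ≤ N → ∀ h : Polynomial ℤ, h.natDegree < k → ∀ (ξ : ℝ) (u w : ℕ), w ≤ N →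
    ‖weyl k c q b h ξ u w‖ ≤ (N : ℝ) ^ (1 + ε) * (q : ℝ) ^ (-η)

/-- the exceptional numerators at one length -/
def Exc (k : ℕ) (η ε : ℝ) (c : ℕ → ℂ) (q N : ℕ) : Set ℕ :=
  {b : ℕ | b < q ∧ ∃ h : Polynomial ℤ, h.natDegree < k ∧ ∃ (ξ : ℝ) (u v : ℕ), v ≤ N ∧
    (N : ℝ) ^ (1 + ε) * (max (1 / (q : ℝ)) (1 / (N : ℝ))) ^ η < ‖weyl k c q b h ξ u v‖}

lemma bad_exc {k : ℕ} {η ε : ℝ} (hη : 0 ≤ η) (hε : 0 < ε) : ∃ Q₀ : ℕ, ∀ q : ℕ, Q₀ ≤ q → ∀ (c : ℕ → ℂ) (b : ℕ), b < q →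
    ¬ Good k η ε c q b → ∃ j : ℕ, q ≤ 2 ^ j ∧ b ∈ Exc k η (ε / 2) c q (2 ^ j) := by
  obtain ⟨Q₀, hQ₀⟩ := Filter.eventually_atTop.1 (((tendsto_rpow_atTop (half_pos hε)).comp
    tendsto_natCast_atTop_atTop).eventually_ge_atTop ((2 : ℝ) ^ (1 + ε / 2)))
  refine ⟨max Q₀ 1, fun q hq c b hb hg => ?_⟩
  unfold Good at hg
  push Not at hg
  obtain ⟨N, hN, h, hh, ξ, u, w, hw, hlt⟩ := hg
  have hq1 : 1 ≤ q := (le_max_right _ _).trans hq
  have hq0 : (0 : ℝ) < q := by exact_mod_cast hq1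
  have hN1 : 1 ≤ N := hq1.trans hN
  have hN0 : (0 : ℝ) < N := by exact_mod_cast hN1
  have h1 : N < 2 ^ (Nat.log 2 N + 1) := Nat.lt_pow_succ_log_self (by norm_num) N
  have h2 : 2 ^ Nat.log 2 N ≤ N := Nat.pow_log_le_self 2 (by omega)
  refine ⟨Nat.log 2 N + 1, by omega, hb, h, hh, ξ, u, w, by omega, ?_⟩
  refine lt_of_le_of_lt ?_ hlt
  have hM : (((2 ^ (Nat.log 2 N + 1) : ℕ)) : ℝ) ≤ 2 * N := by
    have : 2 ^ (Nat.log 2 N + 1) ≤ 2 * N := by rw [pow_succ]; omega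
    exact_mod_cast this
  have hM0 : (0 : ℝ) < (((2 ^ (Nat.log 2 N + 1) : ℕ)) : ℝ) := by positivity
  have hqM : (q : ℝ) ≤ (((2 ^ (Nat.log 2 N + 1) : ℕ)) : ℝ) := by exact_mod_cast (hN.trans h1.le)
  have hmax : max (1 / (q : ℝ)) (1 / (((2 ^ (Nat.log 2 N + 1) : ℕ)) : ℝ)) = 1 / (q : ℝ) :=
    max_eq_left (one_div_le_one_div_of_le hq0 hqM)
  rw [hmax]
  have hqη : (1 / (q : ℝ)) ^ η = (q : ℝ) ^ (-η) := by
    rw [one_div, Real.inv_rpow hq0.le, Real.rpow_neg hq0.le]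
  rw [hqη]
  apply mul_le_mul_of_nonneg_right _ (by positivity)
  have h3 : (2 : ℝ) ^ (1 + ε / 2) ≤ (N : ℝ) ^ (ε / 2) := hQ₀ N (((le_max_left _ _).trans hq).trans hN)
  calc ((((2 ^ (Nat.log 2 N + 1) : ℕ)) : ℝ)) ^ (1 + ε / 2) ≤ (2 * (N : ℝ)) ^ (1 + ε / 2) :=
        Real.rpow_le_rpow hM0.le hM (by positivity)
    _ = 2 ^ (1 + ε / 2) * (N : ℝ) ^ (1 + ε / 2) := Real.mul_rpow (by norm_num) hN0.le
    _ ≤ (N : ℝ) ^ (ε / 2) * (N : ℝ) ^ (1 + ε / 2) := mul_le_mul_of_nonneg_right h3 (by positivity)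
    _ = (N : ℝ) ^ (1 + ε) := by
        rw [← Real.rpow_add hN0]
        congr 1
        ring

lemma count {k : ℕ} (hk : 2 ≤ k) {η ε : ℝ} (hη : 0 ≤ η) (hη4 : η ≤ 1 / 4) (hε : 0 < ε) : ∃ (C : ℝ) (Q₀ : ℕ), 0 ≤ C ∧
    ∀ q : ℕ, q.Prime → Q₀ ≤ q → ∀ c : ℕ → ℂ, (∀ n, ‖c n‖ ≤ 1) →
      ({b : ℕ | b < q ∧ ¬ Good k η ε c q b}.ncard : ℝ) ≤ C * (q : ℝ) ^ (2 * η) := by
  classical
  obtain ⟨Q₁, h1⟩ := bad_exc (k := k) hη hε
  obtain ⟨N₀, h2⟩ := Pool.Agent.Results.MP_3b0be2_nt.SquareRootExceptions.result.1 k hk η hη hη4 (ε / 2) (half_pos hε)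
  set ρ : ℝ := (2 : ℝ) ^ (-ε) with hρ
  have hρ0 : 0 < ρ := by positivity
  have hρ1 : ρ < 1 := Real.rpow_lt_one_of_one_lt_of_neg (by norm_num) (by linarith)
  have hsum : Summable (fun j : ℕ => ρ ^ j) := summable_geometric_of_lt_one hρ0.le hρ1
  refine ⟨2 * ∑' j : ℕ, ρ ^ j, max Q₁ N₀, mul_nonneg (by norm_num) (tsum_nonneg fun j => by positivity), ?_⟩
  intro q hq hqQ c hc
  have hq0 : (0 : ℝ) < q := by exact_mod_cast hq.pos
  have hq1 : (1 : ℝ) ≤ q := by exact_mod_cast hq.one_lt.le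
  set S : Finset ℕ := (range q).filter (fun b => ¬ Good k η ε c q b) with hS
  have hSc : {b : ℕ | b < q ∧ ¬ Good k η ε c q b} = (S : Set ℕ) := by
    ext b
    rw [hS, Finset.mem_coe, mem_filter, mem_range]
    rfl
  rw [hSc, Set.ncard_coe_finset]
  choose! J hJ1 hJ2 using fun (b : ℕ) (hb : b ∈ S) => h1 q ((le_max_left _ _).trans hqQ) c b
    (mem_range.1 (mem_filter.1 hb).1) (mem_filter.1 hb).2
  have hfin : ∀ N, (Exc k η (ε / 2) c q N).Finite := fun N => (Set.finite_Iio q).subset fun b hb => hb.1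
  have hsub : S ⊆ (S.image J).biUnion (fun j => if q ≤ 2 ^ j then (hfin (2 ^ j)).toFinset else ∅) := by
    intro b hb
    rw [mem_biUnion]
    refine ⟨J b, mem_image_of_mem J hb, ?_⟩
    rw [if_pos (hJ1 b hb), Set.Finite.mem_toFinset]
    exact hJ2 b hb
  have hone : ∀ j ∈ S.image J, ((if q ≤ 2 ^ j then (hfin (2 ^ j)).toFinset else ∅ : Finset ℕ).card : ℝ) ≤
      2 * (q : ℝ) ^ (2 * η) * ρ ^ j := by
    intro j _
    split_ifs with hj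
    · have hqN : (q : ℝ) ≤ ((2 ^ j : ℕ) : ℝ) := by exact_mod_cast hj
      have hN1 : (1 : ℝ) ≤ ((2 ^ j : ℕ) : ℝ) := hq1.trans hqN
      have h3 := h2 (2 ^ j) (((le_max_right _ _).trans hqQ).trans hj) q hq (by
        refine hqN.trans ?_
        calc ((2 ^ j : ℕ) : ℝ) = ((2 ^ j : ℕ) : ℝ) ^ (1 : ℝ) := (Real.rpow_one _).symm
          _ ≤ _ := Real.rpow_le_rpow_of_exponent_le hN1 (by linarith)) c hc
      rw [min_eq_left hqN] at h3
      have h4 : (((hfin (2 ^ j)).toFinset.card : ℕ) : ℝ) ≤ 2 * (q : ℝ) ^ (2 * η) / ((2 ^ j : ℕ) : ℝ) ^ (2 * (ε / 2)) := by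
        have h5 := Set.ncard_eq_toFinset_card (Exc k η (ε / 2) c q (2 ^ j)) (hfin (2 ^ j))
        rw [← h5]
        exact h3
      refine h4.trans (le_of_eq ?_)
      rw [div_eq_mul_inv]
      congr 1
      rw [hρ, show 2 * (ε / 2) = ε by ring, ← Real.rpow_neg (by positivity)]
      push_cast
      rw [← Real.rpow_natCast (2 : ℝ) j, ← Real.rpow_mul (by norm_num), ← Real.rpow_natCast ((2 : ℝ) ^ (-ε)) j,
        ← Real.rpow_mul (by norm_num), mul_comm]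
    · rw [card_empty, Nat.cast_zero]
      positivity
  calc (S.card : ℝ) ≤ ((((S.image J).biUnion (fun j => if q ≤ 2 ^ j then (hfin (2 ^ j)).toFinset else ∅)).card : ℕ) : ℝ) := by
        exact_mod_cast card_le_card hsub
    _ ≤ ∑ j ∈ S.image J, ((if q ≤ 2 ^ j then (hfin (2 ^ j)).toFinset else ∅ : Finset ℕ).card : ℝ) := by
        exact_mod_cast card_biUnion_le
    _ ≤ ∑ j ∈ S.image J, 2 * (q : ℝ) ^ (2 * η) * ρ ^ j := sum_le_sum hone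
    _ = 2 * (q : ℝ) ^ (2 * η) * ∑ j ∈ S.image J, ρ ^ j := by rw [mul_sum]
    _ ≤ 2 * (q : ℝ) ^ (2 * η) * ∑' j : ℕ, ρ ^ j := by
        apply mul_le_mul_of_nonneg_left _ (by positivity)
        exact hsum.sum_le_tsum _ (fun j _ => by positivity)
    _ = 2 * (∑' j : ℕ, ρ ^ j) * (q : ℝ) ^ (2 * η) := by ring

/-- Let `q_n` be primes such that the sum of the `q_n ^ (-s)` converges for `s > τ`, and let `θ < 1`.

(1) Let `k ≥ 2`, `0 ≤ η ≤ 1/4`, and let `c_n(m)`, `|c_n(m)| ≤ 1`, be arbitrary coefficients. There is a set `E` of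
Hausdorff dimension at most `(2 η + τ) / (1 - θ)` such that for each `α` in `(0, 1)` outside `E`, all `ε > 0` and all but
finitely many `n`, for ALL the numerators `b` with `|b - α q_n| ≤ q_n ^ θ`, ALL `N ≥ q_n`, all integer polynomials `h` of
degree less than `k`, all real `ξ` and all `u`, `w ≤ N`, the sum of `c_n(m) e((b m ^ k + h(m)) / q_n + ξ m)` over
`u < m ≤ w` has absolute value at most `N ^ (1 + ε) q_n ^ (-η)`.

(2) Let `k ≥ 4`, and let `t_n` be arbitrary real numbers. There is a set `E` of Hausdorff dimension at most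
`(2 / k + τ) / (1 - θ)` such that for each `α` in `(0, 1)` outside `E`, all `ε > 0` and all but finitely many `n`, for ALL
the numerators `b` with `|b - α q_n| ≤ q_n ^ θ` the inequality of `H_k(1/k)` (with this `q_n` and constant `1`) holds at
`t_n + b / q_n` for ALL `N ≥ q_n` and all real `ξ`. -/
theorem result (q : ℕ → ℕ) (hq : ∀ n, (q n).Prime) (τ θ : ℝ) (hτ : 0 ≤ τ) (hE : ExpLe (fun n => (q n : ℝ)) τ)
    (hθ : θ < 1) :
    (∀ k : ℕ, 2 ≤ k → ∀ η : ℝ, 0 ≤ η → η ≤ 1 / 4 → ∀ c : ℕ → ℕ → ℂ, (∀ n m, ‖c n m‖ ≤ 1) →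
      ∃ E : Set ℝ, dimH E ≤ ENNReal.ofReal ((2 * η + τ) / (1 - θ)) ∧ ∀ α : ℝ, 0 < α → α < 1 → α ∉ E → ∀ ε : ℝ, 0 < ε →
        ∃ n₀ : ℕ, ∀ n, n₀ ≤ n → ∀ b : ℕ, |(b : ℝ) - α * q n| ≤ (q n : ℝ) ^ θ → Good k η ε (c n) (q n) b) ∧
    (∀ k : ℕ, 4 ≤ k → ∀ t : ℕ → ℝ,
      ∃ E : Set ℝ, dimH E ≤ ENNReal.ofReal ((2 / k + τ) / (1 - θ)) ∧ ∀ α : ℝ, 0 < α → α < 1 → α ∉ E → ∀ ε : ℝ, 0 < ε →
        ∃ n₀ : ℕ, ∀ n, n₀ ≤ n → ∀ b : ℕ, |(b : ℝ) - α * q n| ≤ (q n : ℝ) ^ θ → ∀ N : ℕ, q n ≤ N → ∀ ξ : ℝ,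
          ‖∑ m ∈ Icc 1 N, Complex.exp (2 * (Real.pi : ℂ) * Complex.I *
            (((t n + (b : ℝ) / (q n : ℝ)) * (m : ℝ) ^ k + ξ * (m : ℝ) : ℝ) : ℂ))‖ ≤
          (N : ℝ) ^ (1 + ε) * (1 / (q n : ℝ) + 1 / (N : ℝ) + (q n : ℝ) / (N : ℝ) ^ k) ^ (1 / (k : ℝ))) := by
  have hv : ∀ n, (1 : ℝ) ≤ (q n : ℝ) := fun n => by exact_mod_cast (hq n).one_lt.le
  have hv0 : ∀ n, (0 : ℝ) < (q n : ℝ) := fun n => lt_of_lt_of_le one_pos (hv n)
  have htv : Tendsto (fun n => (q n : ℝ)) atTop atTop := Pool.Agent.Y854.GM.tendsto_of_expLe hv0 hτ hE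
  have h1θ : 0 < 1 - θ := by linarith
  have part1 : ∀ k : ℕ, 2 ≤ k → ∀ η : ℝ, 0 ≤ η → η ≤ 1 / 4 → ∀ c : ℕ → ℕ → ℂ, (∀ n m, ‖c n m‖ ≤ 1) →
      ∃ E : Set ℝ, dimH E ≤ ENNReal.ofReal ((2 * η + τ) / (1 - θ)) ∧ ∀ α : ℝ, 0 < α → α < 1 → α ∉ E → ∀ ε : ℝ, 0 < ε →
        ∃ n₀ : ℕ, ∀ n, n₀ ≤ n → ∀ b : ℕ, |(b : ℝ) - α * q n| ≤ (q n : ℝ) ^ θ → Good k η ε (c n) (q n) b := by
    intro k hk η hη hη4 c hc
    have hwin : ∀ i : ℕ, ∃ E : Set ℝ, dimH E ≤ ENNReal.ofReal ((2 * η + τ) / (1 - θ)) ∧ ∀ α : ℝ, 0 < α → α ∉ E →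
        ∃ n0 : ℕ, ∀ n : ℕ, n0 ≤ n → ∀ b ∈ {b : ℕ | b < q n ∧ ¬ Good k η (1 / ((i : ℝ) + 1)) (c n) (q n) b},
          1 * (q n : ℝ) ^ θ < |(b : ℝ) - α * q n| := by
      intro i
      obtain ⟨C, Q₀, hC0, hC⟩ := count hk hη hη4 (show 0 < 1 / ((i : ℝ) + 1) by positivity)
      refine Pool.Agent.Y854.GM.windowsV (s := 2 * η)
        (fun n => {b : ℕ | b < q n ∧ ¬ Good k η (1 / ((i : ℝ) + 1)) (c n) (q n) b}) (fun _ (b : ℕ) => (b : ℝ)) 1 hv hτ hE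
        (by positivity) hθ ?_
      intro A ε' hε'
      obtain ⟨n₁, hn₁⟩ := Filter.eventually_atTop.1 (htv.eventually_ge_atTop (Q₀ : ℝ))
      refine ⟨C, n₁, fun n hn => ?_⟩
      have hfin : {b : ℕ | b < q n ∧ ¬ Good k η (1 / ((i : ℝ) + 1)) (c n) (q n) b}.Finite :=
        (Set.finite_Iio (q n)).subset fun b hb => hb.1
      have hsub : {b : ℕ | b ∈ {b : ℕ | b < q n ∧ ¬ Good k η (1 / ((i : ℝ) + 1)) (c n) (q n) b} ∧
          (b : ℝ) ≤ ((A : ℝ) + 1) * q n} ⊆ {b : ℕ | b < q n ∧ ¬ Good k η (1 / ((i : ℝ) + 1)) (c n) (q n) b} :=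
        fun b hb => hb.1
      refine ⟨hfin.subset hsub, ?_⟩
      have h3 : (({b : ℕ | b ∈ {b : ℕ | b < q n ∧ ¬ Good k η (1 / ((i : ℝ) + 1)) (c n) (q n) b} ∧
          (b : ℝ) ≤ ((A : ℝ) + 1) * q n}.ncard : ℕ) : ℝ) ≤
          (({b : ℕ | b < q n ∧ ¬ Good k η (1 / ((i : ℝ) + 1)) (c n) (q n) b}.ncard : ℕ) : ℝ) := by
        exact_mod_cast Set.ncard_le_ncard hsub hfin
      refine h3.trans ((hC (q n) (hq n) (by exact_mod_cast hn₁ n hn) (c n) (hc n)).trans ?_)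
      apply mul_le_mul_of_nonneg_left _ hC0
      exact Real.rpow_le_rpow_of_exponent_le (hv n) (by linarith)
    choose E hE1 hE2 using hwin
    refine ⟨⋃ i, E i, ?_, fun α hα0 hα1 hαE ε hε => ?_⟩
    · rw [dimH_iUnion]
      exact iSup_le hE1
    · obtain ⟨i, hi⟩ := exists_nat_one_div_lt hε
      obtain ⟨n₀, hn₀⟩ := hE2 i α hα0 (fun h => hαE (Set.mem_iUnion.2 ⟨i, h⟩))
      -- the window is below `q`
      obtain ⟨n₁, hn₁⟩ := Filter.eventually_atTop.1 (((tendsto_rpow_atTop h1θ).comp htv).eventually_gt_atTop (1 / (1 - α)))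
      refine ⟨max n₀ n₁, fun n hn b hb => ?_⟩
      have hbq : b < q n := by
        have h3 : 1 / (1 - α) < (q n : ℝ) ^ (1 - θ) := hn₁ n ((le_max_right _ _).trans hn)
        have h4 : (q n : ℝ) ^ θ * (q n : ℝ) ^ (1 - θ) = q n := by
          rw [← Real.rpow_add (hv0 n), show θ + (1 - θ) = 1 by ring, Real.rpow_one]
        have h5 : (q n : ℝ) ^ θ < (1 - α) * q n := by
          have h6 : 1 < (1 - α) * (q n : ℝ) ^ (1 - θ) := by
            rw [div_lt_iff₀ (by linarith)] at h3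
            linarith
          have h7 : 0 < (q n : ℝ) ^ θ := Real.rpow_pos_of_pos (hv0 n) θ
          calc (q n : ℝ) ^ θ = (q n : ℝ) ^ θ * 1 := (mul_one _).symm
            _ < (q n : ℝ) ^ θ * ((1 - α) * (q n : ℝ) ^ (1 - θ)) := mul_lt_mul_of_pos_left h6 h7
            _ = (1 - α) * ((q n : ℝ) ^ θ * (q n : ℝ) ^ (1 - θ)) := by ring
            _ = (1 - α) * q n := by rw [h4]
        have h8 := (abs_le.1 hb).2
        have h9 : (b : ℝ) < q n := by linarith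
        exact_mod_cast h9
      have hgood : Good k η (1 / ((i : ℝ) + 1)) (c n) (q n) b := by
        by_contra hg
        have h3 := hn₀ n ((le_max_left _ _).trans hn) b ⟨hbq, hg⟩
        rw [one_mul] at h3
        exact absurd hb (not_le.2 h3)
      intro N hN h hh ξ u w hw
      refine (hgood N hN h hh ξ u w hw).trans ?_
      apply mul_le_mul_of_nonneg_right _ (Real.rpow_nonneg (hv0 n).le _)
      have hN1 : (1 : ℝ) ≤ N := (hv n).trans (by exact_mod_cast hN)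
      exact Real.rpow_le_rpow_of_exponent_le hN1 (by linarith)
  refine ⟨part1, fun k hk t => ?_⟩
  have hkR : (4 : ℝ) ≤ k := by exact_mod_cast hk
  have hk0 : (0 : ℝ) < k := by linarith
  obtain ⟨E, hE1, hE2⟩ := part1 k (by omega) (1 / k) (by positivity) (one_div_le_one_div_of_le (by norm_num) hkR)
    (fun n m => Complex.exp (2 * (Real.pi : ℂ) * Complex.I * ((t n * (m : ℝ) ^ k : ℝ) : ℂ))) (fun n m => by
      rw [show 2 * (Real.pi : ℂ) * Complex.I * ((t n * (m : ℝ) ^ k : ℝ) : ℂ) =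
        ((2 * Real.pi * (t n * (m : ℝ) ^ k) : ℝ) : ℂ) * Complex.I by push_cast; ring,
        Complex.norm_exp_ofReal_mul_I])
  refine ⟨E, hE1.trans (le_of_eq (by rw [show 2 * (1 / (k : ℝ)) = 2 / k by ring])), fun α hα0 hα1 hαE ε hε => ?_⟩
  obtain ⟨n₀, hn₀⟩ := hE2 α hα0 hα1 hαE ε hε
  refine ⟨n₀, fun n hn b hb N hN ξ => ?_⟩
  have h1 := hn₀ n hn b hb N hN 0 (by rw [Polynomial.natDegree_zero]; omega) ξ 0 N le_rfl
  have hN0 : (0 : ℝ) < N := lt_of_lt_of_le (hv0 n) (by exact_mod_cast hN)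
  have h2 : (q n : ℝ) ^ (-(1 / (k : ℝ))) ≤ (1 / (q n : ℝ) + 1 / (N : ℝ) + (q n : ℝ) / (N : ℝ) ^ k) ^ (1 / (k : ℝ)) := by
    rw [Real.rpow_neg (hv0 n).le, ← Real.inv_rpow (hv0 n).le, ← one_div (q n : ℝ)]
    apply Real.rpow_le_rpow (by positivity) _ (by positivity)
    have a2 : 0 ≤ 1 / (N : ℝ) := by positivity
    have a3 : 0 ≤ (q n : ℝ) / (N : ℝ) ^ k := by positivity
    linarith
  refine le_trans (le_of_eq ?_) (h1.trans (mul_le_mul_of_nonneg_left h2 (by positivity)))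
  congr 1
  unfold weyl
  have e1 : Finset.Icc 1 N = Finset.Ioc 0 N := by
    ext m
    simp only [Finset.mem_Icc, Finset.mem_Ioc]
    omega
  rw [e1]
  refine Finset.sum_congr rfl fun m _ => ?_
  rw [← Complex.exp_add]
  congr 1
  simp only [Polynomial.eval_zero, Int.cast_zero, add_zero]
  push_cast
  ring

end Pool.Agent.Results.MP_3b0be2_nt.NumeratorsInWindows
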