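import Pool.Agent.Results.MP_3b0be2_nt.NumeratorsInWindows
import Pool.Agent.V11260.PQ

/-!
# Montgomery's inequality at ALL the numerators `p`-adically near `α`, for all lengths `N ≥ q`

Let `q_n` be primes, `t_n` arbitrary real numbers, `k ≥ 4`, `p` a prime and `σ > 0`. For all `α` in `ℤ_p` outside a small set, all
large `n` and ALL the numerators `b < q_n` with `|b - α|_p ≤ q_n ^ (-σ)` the inequality of `H_k(1/k)` (with this `q_n`) holds at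
the point `t_n + b / q_n` for ALL `N ≥ q_n` and all real `ξ`.
-/

set_option autoImplicit false

open Finset Filter Topology MeasureTheory

namespace Pool.Agent.Results.MP_3b0be2_nt.PadicNumerators

open Pool.Agent.Results.MP_3b0be2_nt.NumeratorsInWindows (ExpLe weyl Good count)

/-- Let `q_n` be primes such that the sum of the `q_n ^ (-s)` converges for `s > τ`, let `p` be a prime and `σ > 0`.

(1) Let `k ≥ 2`, `0 ≤ η ≤ 1/4`, and let `c_n(m)`, `|c_n(m)| ≤ 1`, be arbitrary coefficients. There is a set `E` of `p`-adic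
integers of Hausdorff dimension at most `(2 η + τ) / σ` such that for each `α` in `ℤ_p` outside `E`, all `ε > 0` and all but
finitely many `n`, for ALL the numerators `b < q_n` with `|b - α|_p ≤ q_n ^ (-σ)`, ALL `N ≥ q_n`, all integer polynomials `h` of
degree less than `k`, all real `ξ` and all `u`, `w ≤ N`, the sum of `c_n(m) e((b m ^ k + h(m)) / q_n + ξ m)` over
`u < m ≤ w` has absolute value at most `N ^ (1 + ε) q_n ^ (-η)`.

(2) Let `k ≥ 4`, and let `t_n` be arbitrary real numbers. There is a set `E` of `p`-adic integers of Hausdorff dimension at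
most `(2 / k + τ) / σ` such that for each `α` in `ℤ_p` outside `E`, all `ε > 0` and all but finitely many `n`, for ALL the
numerators `b < q_n` with `|b - α|_p ≤ q_n ^ (-σ)` the inequality of `H_k(1/k)` (with this `q_n` and constant `1`) holds at
`t_n + b / q_n` for ALL `N ≥ q_n` and all real `ξ`. -/
theorem result (q : ℕ → ℕ) (hq : ∀ n, (q n).Prime) (τ : ℝ) (hτ : 0 ≤ τ) (hE : ExpLe (fun n => (q n : ℝ)) τ)
    (p : ℕ) [Fact p.Prime] (σ : ℝ) (hσ : 0 < σ) :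
    (∀ k : ℕ, 2 ≤ k → ∀ η : ℝ, 0 ≤ η → η ≤ 1 / 4 → ∀ c : ℕ → ℕ → ℂ, (∀ n m, ‖c n m‖ ≤ 1) →
      ∃ E : Set ℤ_[p], dimH E ≤ ENNReal.ofReal ((2 * η + τ) / σ) ∧ ∀ α : ℤ_[p], α ∉ E → ∀ ε : ℝ, 0 < ε →
        ∃ n₀ : ℕ, ∀ n, n₀ ≤ n → ∀ b : ℕ, b < q n → ‖(b : ℤ_[p]) - α‖ ≤ (q n : ℝ) ^ (-σ) → Good k η ε (c n) (q n) b) ∧
    (∀ k : ℕ, 4 ≤ k → ∀ t : ℕ → ℝ,
      ∃ E : Set ℤ_[p], dimH E ≤ ENNReal.ofReal ((2 / k + τ) / σ) ∧ ∀ α : ℤ_[p], α ∉ E → ∀ ε : ℝ, 0 < ε →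
        ∃ n₀ : ℕ, ∀ n, n₀ ≤ n → ∀ b : ℕ, b < q n → ‖(b : ℤ_[p]) - α‖ ≤ (q n : ℝ) ^ (-σ) → ∀ N : ℕ, q n ≤ N → ∀ ξ : ℝ,
          ‖∑ m ∈ Icc 1 N, Complex.exp (2 * (Real.pi : ℂ) * Complex.I *
            (((t n + (b : ℝ) / (q n : ℝ)) * (m : ℝ) ^ k + ξ * (m : ℝ) : ℝ) : ℂ))‖ ≤
          (N : ℝ) ^ (1 + ε) * (1 / (q n : ℝ) + 1 / (N : ℝ) + (q n : ℝ) / (N : ℝ) ^ k) ^ (1 / (k : ℝ))) := by
  have hv : ∀ n, (1 : ℝ) ≤ (q n : ℝ) := fun n => by exact_mod_cast (hq n).one_lt.le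
  have hv0 : ∀ n, (0 : ℝ) < (q n : ℝ) := fun n => lt_of_lt_of_le one_pos (hv n)
  have htv : Tendsto (fun n => (q n : ℝ)) atTop atTop := Pool.Agent.Y854.GM.tendsto_of_expLe hv0 hτ hE
  have part1 : ∀ k : ℕ, 2 ≤ k → ∀ η : ℝ, 0 ≤ η → η ≤ 1 / 4 → ∀ c : ℕ → ℕ → ℂ, (∀ n m, ‖c n m‖ ≤ 1) →
      ∃ E : Set ℤ_[p], dimH E ≤ ENNReal.ofReal ((2 * η + τ) / σ) ∧ ∀ α : ℤ_[p], α ∉ E → ∀ ε : ℝ, 0 < ε →
        ∃ n₀ : ℕ, ∀ n, n₀ ≤ n → ∀ b : ℕ, b < q n → ‖(b : ℤ_[p]) - α‖ ≤ (q n : ℝ) ^ (-σ) → Good k η ε (c n) (q n) b := by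
    intro k hk η hη hη4 c hc
    have hwin : ∀ i : ℕ, ∃ E : Set ℤ_[p], dimH E ≤ ENNReal.ofReal ((2 * η + τ) / σ) ∧ ∀ α : ℤ_[p], α ∉ E →
        ∃ n0 : ℕ, ∀ n : ℕ, n0 ≤ n →
          ∀ t ∈ (fun b : ℕ => (b : ℤ)) '' {b : ℕ | b < q n ∧ ¬ Good k η (1 / ((i : ℝ) + 1)) (c n) (q n) b},
          (q n : ℝ) ^ (-σ) < ‖(t : ℤ_[p]) - α‖ := by
      intro i
      obtain ⟨C, Q₀, hC0, hC⟩ := count hk hη hη4 (show 0 < 1 / ((i : ℝ) + 1) by positivity)
      obtain ⟨n₁, hn₁⟩ := Filter.eventually_atTop.1 (htv.eventually_ge_atTop (Q₀ : ℝ))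
      refine Pool.Agent.V11260.PQ.padic_seq p
        (fun n => (fun b : ℕ => (b : ℤ)) '' {b : ℕ | b < q n ∧ ¬ Good k η (1 / ((i : ℝ) + 1)) (c n) (q n) b})
        (v := fun n => (q n : ℝ)) (s := 2 * η) hv hτ hE (by positivity) hσ n₁ ?_
      intro ε' hε'
      refine ⟨C, fun n hn => ?_⟩
      have hfin : {b : ℕ | b < q n ∧ ¬ Good k η (1 / ((i : ℝ) + 1)) (c n) (q n) b}.Finite :=
        (Set.finite_Iio (q n)).subset fun b hb => hb.1
      refine ⟨hfin.image _, ?_⟩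
      have h3 : ((((fun b : ℕ => (b : ℤ)) '' {b : ℕ | b < q n ∧ ¬ Good k η (1 / ((i : ℝ) + 1)) (c n) (q n) b}).ncard : ℕ) : ℝ) ≤
          (({b : ℕ | b < q n ∧ ¬ Good k η (1 / ((i : ℝ) + 1)) (c n) (q n) b}.ncard : ℕ) : ℝ) := by
        exact_mod_cast Set.ncard_image_le hfin
      refine h3.trans ((hC (q n) (hq n) (by exact_mod_cast hn₁ n hn) (c n) (hc n)).trans ?_)
      apply mul_le_mul_of_nonneg_left _ hC0
      exact Real.rpow_le_rpow_of_exponent_le (hv n) (by linarith)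
    choose E hE1 hE2 using hwin
    refine ⟨⋃ i, E i, ?_, fun α hαE ε hε => ?_⟩
    · rw [dimH_iUnion]
      exact iSup_le hE1
    · obtain ⟨i, hi⟩ := exists_nat_one_div_lt hε
      obtain ⟨n₀, hn₀⟩ := hE2 i α (fun h => hαE (Set.mem_iUnion.2 ⟨i, h⟩))
      refine ⟨n₀, fun n hn b hbq hb => ?_⟩
      have hgood : Good k η (1 / ((i : ℝ) + 1)) (c n) (q n) b := by
        by_contra hg
        have h3 := hn₀ n hn (b : ℤ) ⟨b, ⟨hbq, hg⟩, rfl⟩
        rw [Int.cast_natCast] at h3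
        exact absurd hb (not_le.2 h3)
      intro N hN h hh ξ u w hw
      refine (hgood N hN h hh ξ u w hw).trans ?_
      apply mul_le_mul_of_nonneg_right _ (Real.rpow_nonneg (hv0 n).le _)
      have hN1 : (1 : ℝ) ≤ N := (hv n).trans (by exact_mod_cast hN)
      exact Real.rpow_le_rpow_of_exponent_le hN1 (by linarith)
  refine ⟨part1, fun k hk t => ?_⟩
  have hkR : (4 : ℝ) ≤ k := by exact_mod_cast hk
  have hk0 : (0 : ℝ) < k := by linarith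
  obtain ⟨E, hE1, hE2⟩ := part1 k (by omega) (1 / k) (by positivity) (one_div_le_one_div_of_le (by norm_num) hkR)
    (fun n m => Complex.exp (2 * (Real.pi : ℂ) * Complex.I * ((t n * (m : ℝ) ^ k : ℝ) : ℂ))) (fun n m => by
      rw [show 2 * (Real.pi : ℂ) * Complex.I * ((t n * (m : ℝ) ^ k : ℝ) : ℂ) =
        ((2 * Real.pi * (t n * (m : ℝ) ^ k) : ℝ) : ℂ) * Complex.I by push_cast; ring,
        Complex.norm_exp_ofReal_mul_I])
  refine ⟨E, hE1.trans (le_of_eq (by rw [show 2 * (1 / (k : ℝ)) = 2 / k by ring])), fun α hαE ε hε => ?_⟩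
  obtain ⟨n₀, hn₀⟩ := hE2 α hαE ε hε
  refine ⟨n₀, fun n hn b hbq hb N hN ξ => ?_⟩
  have h1 := hn₀ n hn b hbq hb N hN 0 (by rw [Polynomial.natDegree_zero]; omega) ξ 0 N le_rfl
  have hN0 : (0 : ℝ) < N := lt_of_lt_of_le (hv0 n) (by exact_mod_cast hN)
  have h2 : (q n : ℝ) ^ (-(1 / (k : ℝ))) ≤ (1 / (q n : ℝ) + 1 / (N : ℝ) + (q n : ℝ) / (N : ℝ) ^ k) ^ (1 / (k : ℝ)) := by
    rw [Real.rpow_neg (hv0 n).le, ← Real.inv_rpow (hv0 n).le, ← one_div (q n : ℝ)]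
    apply Real.rpow_le_rpow (by positivity) _ (by positivity)
    have a2 : 0 ≤ 1 / (N : ℝ) := by positivity
    have a3 : 0 ≤ (q n : ℝ) / (N : ℝ) ^ k := by positivity
    linarith
  refine le_trans (le_of_eq ?_) (h1.trans (mul_le_mul_of_nonneg_left h2 (by positivity)))
  congr 1
  unfold weyl
  have e1 : Finset.Icc 1 N = Finset.Ioc 0 N := by
    ext m
    simp only [Finset.mem_Icc, Finset.mem_Ioc]
    omega
  rw [e1]
  refine Finset.sum_congr rfl fun m _ => ?_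
  rw [← Complex.exp_add]
  congr 1
  simp only [Polynomial.eval_zero, Int.cast_zero, add_zero]
  push_cast
  ring

end Pool.Agent.Results.MP_3b0be2_nt.PadicNumerators
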