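import Pool.Agent.Y951.MW.Final

/-!
# Montgomery's bound at a prime modulus: all lower degree terms, few exceptions

Source: the theorem `montgomery` of `Pool.Agent.Y951.MW.Final` of the starting library, which no starting
result states.
-/

set_option autoImplicit false

namespace Pool.Agent.Results.MP_3b0be2_nt.SquareRootExceptions

open Pool.Agent.Y951.MW

/-- **(1)** Let `k ≥ 2`, `0 ≤ η ≤ 1/4`, `ε > 0`. For all `N ≥ N₀(k, η, ε)`, all primes `q ≤ N^(2-4η)` and all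
complex sequences `c` with `|c n| ≤ 1`, at most `2 min(q, N)^(2η) N^(-2ε)` residues `b` mod `q` admit an integer
polynomial `h` of degree less than `k`, a real `ξ` and `u`, `v` with `v ≤ N` and
`|∑_{u<n≤v} c n e((b n^k + h(n))/q + ξ n)| > N^(1+ε) max(1/q, 1/N)^η`.

**(2)** Let `k ≥ 4`, `ε > 0`. For all `N ≥ N₀(k, ε)`, all primes `q ≤ N` and all real `t`, the inequality of
`H_k(1/k)` (with this `q` and constant `1`) holds at `t + b/q` for all real `ξ`, for all residues `b` mod `q` with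
at most `2 q^(2/k) N^(-2ε)` exceptions. -/
theorem result :
    (∀ k : ℕ, 2 ≤ k → ∀ η : ℝ, 0 ≤ η → η ≤ 1 / 4 → ∀ ε : ℝ, 0 < ε → ∃ N₀ : ℕ, ∀ N : ℕ, N₀ ≤ N →
      ∀ q : ℕ, q.Prime → (q : ℝ) ≤ (N : ℝ) ^ (2 - 4 * η) → ∀ c : ℕ → ℂ, (∀ n, ‖c n‖ ≤ 1) →
      (({b : ℕ | b < q ∧ ∃ h : Polynomial ℤ, h.natDegree < k ∧ ∃ (ξ : ℝ) (u v : ℕ), v ≤ N ∧
        (N : ℝ) ^ (1 + ε) * (max (1 / (q : ℝ)) (1 / (N : ℝ))) ^ η <
          ‖∑ n ∈ Finset.Ioc u v, c n * Complex.exp (2 * (Real.pi : ℂ) * Complex.I *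
            ((((b : ℝ) * (n : ℝ) ^ k + ((h.eval (n : ℤ) : ℤ) : ℝ)) / (q : ℝ) + ξ * (n : ℝ) : ℝ) : ℂ))‖}.ncard :
          ℕ) : ℝ) ≤ 2 * (min (q : ℝ) (N : ℝ)) ^ (2 * η) / (N : ℝ) ^ (2 * ε)) ∧
    (∀ k : ℕ, 4 ≤ k → ∀ ε : ℝ, 0 < ε → ∃ N₀ : ℕ, ∀ N : ℕ, N₀ ≤ N → ∀ q : ℕ, q.Prime → q ≤ N → ∀ t : ℝ,
      (({b : ℕ | b < q ∧ ∃ ξ : ℝ,
        (N : ℝ) ^ (1 + ε) * (1 / (q : ℝ) + 1 / (N : ℝ) + (q : ℝ) / (N : ℝ) ^ k) ^ (1 / (k : ℝ)) <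
          ‖∑ n ∈ Finset.Icc 1 N, Complex.exp (2 * (Real.pi : ℂ) * Complex.I *
            (((t + (b : ℝ) / (q : ℝ)) * (n : ℝ) ^ k + ξ * (n : ℝ) : ℝ) : ℂ))‖}.ncard : ℕ) : ℝ) ≤
        2 * (q : ℝ) ^ (2 / (k : ℝ)) / (N : ℝ) ^ (2 * ε)) := by
  have hmain : ∀ k : ℕ, 2 ≤ k → ∀ η : ℝ, 0 ≤ η → η ≤ 1 / 4 → ∀ ε : ℝ, 0 < ε → ∃ N₀ : ℕ, ∀ N : ℕ, N₀ ≤ N →
      ∀ q : ℕ, q.Prime → (q : ℝ) ≤ (N : ℝ) ^ (2 - 4 * η) → ∀ c : ℕ → ℂ, (∀ n, ‖c n‖ ≤ 1) →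
      (({b : ℕ | b < q ∧ ∃ h : Polynomial ℤ, h.natDegree < k ∧ ∃ (ξ : ℝ) (u v : ℕ), v ≤ N ∧
        (N : ℝ) ^ (1 + ε) * (max (1 / (q : ℝ)) (1 / (N : ℝ))) ^ η <
          ‖∑ n ∈ Finset.Ioc u v, c n * Complex.exp (2 * (Real.pi : ℂ) * Complex.I *
            ((((b : ℝ) * (n : ℝ) ^ k + ((h.eval (n : ℤ) : ℤ) : ℝ)) / (q : ℝ) + ξ * (n : ℝ) : ℝ) : ℂ))‖}.ncard :
          ℕ) : ℝ) ≤ 2 * (min (q : ℝ) (N : ℝ)) ^ (2 * η) / (N : ℝ) ^ (2 * ε) := by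
    intro k hk η hη0 hη ε hε
    obtain ⟨N₀, h⟩ := montgomery hk hη0 hη hε
    refine ⟨N₀, fun N hN q hq hqN c hc => ?_⟩
    simp only [← e_eq]
    exact h N hN q hq hqN c hc
  refine ⟨hmain, fun k hk ε hε => ?_⟩
  have hkR : (4 : ℝ) ≤ k := by exact_mod_cast hk
  have hk0 : (0 : ℝ) < k := by linarith
  obtain ⟨N₀, h⟩ := hmain k (by omega) (1 / k) (by positivity)
    (one_div_le_one_div_of_le (by norm_num) hkR) ε hε
  refine ⟨max N₀ 1, fun N hN q hq hqN t => ?_⟩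
  have hN1 : 1 ≤ N := (le_max_right _ _).trans hN
  have hN1' : (1 : ℝ) ≤ N := by exact_mod_cast hN1
  have hqN' : (q : ℝ) ≤ N := by exact_mod_cast hqN
  have hq0 : (0 : ℝ) < q := by exact_mod_cast hq.pos
  have hexp : (q : ℝ) ≤ (N : ℝ) ^ (2 - 4 * (1 / (k : ℝ))) := by
    refine hqN'.trans ?_
    have h1 : (1 : ℝ) ≤ 2 - 4 * (1 / (k : ℝ)) := by
      have : 4 * (1 / (k : ℝ)) ≤ 1 := by
        rw [mul_one_div, div_le_one hk0]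
        exact hkR
      linarith
    calc (N : ℝ) = (N : ℝ) ^ (1 : ℝ) := (Real.rpow_one _).symm
      _ ≤ _ := Real.rpow_le_rpow_of_exponent_le hN1' h1
  have h2 := h N ((le_max_left _ _).trans hN) q hq hexp
    (fun n => Complex.exp (2 * (Real.pi : ℂ) * Complex.I * ((t * (n : ℝ) ^ k : ℝ) : ℂ))) (fun n => by
      rw [show 2 * (Real.pi : ℂ) * Complex.I * ((t * (n : ℝ) ^ k : ℝ) : ℂ) =
        ((2 * Real.pi * (t * (n : ℝ) ^ k) : ℝ) : ℂ) * Complex.I by push_cast; ring,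
        Complex.norm_exp_ofReal_mul_I])
  rw [min_eq_left hqN', show 2 * (1 / (k : ℝ)) = 2 / k by ring] at h2
  refine le_trans ?_ h2
  rw [Nat.cast_le]
  refine Set.ncard_le_ncard ?_ ((Set.finite_Iio q).subset fun b hb => hb.1)
  rintro b ⟨hb, ξ, h3⟩
  refine ⟨hb, 0, by simp; omega, ξ, 0, N, le_rfl, ?_⟩
  have h4 : (N : ℝ) ^ (1 + ε) * (max (1 / (q : ℝ)) (1 / (N : ℝ))) ^ (1 / (k : ℝ)) ≤
      (N : ℝ) ^ (1 + ε) * (1 / (q : ℝ) + 1 / (N : ℝ) + (q : ℝ) / (N : ℝ) ^ k) ^ (1 / (k : ℝ)) := by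
    refine mul_le_mul_of_nonneg_left (Real.rpow_le_rpow ?_ ?_ (by positivity)) (by positivity)
    · exact le_max_of_le_left (by positivity)
    · have a1 : 0 ≤ 1 / (q : ℝ) := by positivity
      have a2 : 0 ≤ 1 / (N : ℝ) := by positivity
      have a3 : 0 ≤ (q : ℝ) / (N : ℝ) ^ k := by positivity
      exact max_le (by linarith) (by linarith)
  refine h4.trans_lt (h3.trans_le (le_of_eq ?_))
  congr 1
  have e1 : Finset.Icc 1 N = Finset.Ioc 0 N := by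
    ext n
    simp only [Finset.mem_Icc, Finset.mem_Ioc]
    omega
  rw [e1]
  refine Finset.sum_congr rfl fun n _ => ?_
  rw [← Complex.exp_add]
  congr 1
  simp only [Polynomial.eval_zero, Int.cast_zero, add_zero]
  push_cast
  ring

end Pool.Agent.Results.MP_3b0be2_nt.SquareRootExceptions
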